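import Pool.Agent.Lib.H30K.Defs

/-!
# H56C.D: a Codazzi tensor with two eigenvalues in dimension `d` (definitions)

As in `Lib/H30K/Defs.lean` (dimension six), for every `d`.
-/

set_option autoImplicit false

open scoped ContDiff Topology Manifold
open Set

namespace H56C.D

open H31R H79G H60E H30K
open Pool.Agent.H69Hopf (Arr IsAlgCurv ev area2)

variable {d : ℕ}

/-- two classes of indices (`s i = true` and `s i = false`), mixed part diagonal -/
structure Kr (s : Fin d → Bool) (R : Arr d) : Prop where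
  z : ∀ i j k l, R i j k l ≠ 0 → (s i = s k ∧ s j = s l) ∨ (s i = s l ∧ s j = s k)
  d : ∀ i j k l, s i ≠ s j → s i = s k → s j = s l → (i ≠ k ∨ j ≠ l) → R i j k l = 0

/-- `β` has two values `mu < lam`, each at least twice; `ε i = 1` iff `β i = lam`. -/
structure TwoV (β ε : Fin d → ℝ) (lam mu : ℝ) : Prop where
  lt : mu < lam
  ep : ∀ i, ε i = 0 ∨ ε i = 1
  eq : ∀ i, β i = mu + (lam - mu) * ε i
  two : ∀ i, ∃ j, j ≠ i ∧ ε j = ε i
  zero : ∃ i, ε i = 0
  one : ∃ i, ε i = 1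

/-- `tr (G⁻¹ b)` -/
noncomputable def tr1 (G b : Mt d) : ℝ := (G⁻¹ * b).trace
/-- `tr (G⁻¹ b)²` -/
noncomputable def tr2 (G b : Mt d) : ℝ := (G⁻¹ * b * (G⁻¹ * b)).trace
/-- `tr (G⁻¹ b)³` -/
noncomputable def tr3 (G b : Mt d) : ℝ := (G⁻¹ * b * (G⁻¹ * b) * (G⁻¹ * b)).trace
/-- `∑ (β i - m)²`, `m` the mean of the eigenvalues `β i` -/
noncomputable def nn2 (G b : Mt d) : ℝ := tr2 G b - tr1 G b ^ 2 / d
/-- `∑ (β i - m)³` -/
noncomputable def nn3 (G b : Mt d) : ℝ := tr3 G b - 3 * (tr1 G b * tr2 G b) / d + 2 * tr1 G b ^ 3 / (d : ℝ) ^ 2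
/-- the difference of the two eigenvalues -/
noncomputable def ww (G b : Mt d) : ℝ := Real.sqrt ((nn3 G b / nn2 G b) ^ 2 + 4 * nn2 G b / d)
/-- the smaller eigenvalue -/
noncomputable def mm (G b : Mt d) : ℝ := (nn3 G b / nn2 G b - ww G b) / 2 + tr1 G b / d
/-- the projection onto the eigenspace of the larger eigenvalue (as a bilinear form) -/
noncomputable def PP (G b : Mt d) : Mt d := (ww G b)⁻¹ • (b - mm G b • G)

end H56C.D
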