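import Pool.Agent.Lib.H56C.D.G10A

/-!
# G10 in dimension `d` (see `Lib/H30K/G10.lean`)
-/

set_option autoImplicit false

open scoped ContDiff Topology Manifold
open Set

namespace H56C.D

open H31R H79G H60E H30K
open Pool.Agent.H69Hopf (Arr IsAlgCurv ev area2)
open HopfKC (lo hi)

variable {d : ℕ}

/-- the block-diagonal matrix -/
noncomputable def g10W (ε : Fin d → ℝ) (Y Z : Mt d) : Mt d := fun i j =>
  if ε i = 1 then (if ε j = 1 then Z i j else 0) else (if ε j = 0 then Y i j else 0)

theorem g10_symm {ε : Fin d → ℝ} (he : ∀ i, ε i = 0 ∨ ε i = 1) {Y Z : Mt d}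
    (hY : ∀ i j, Y i j = Y j i) (hZ : ∀ i j, Z i j = Z j i) (i j : Fin d) :
    g10W ε Y Z i j = g10W ε Y Z j i := by
  unfold g10W
  rcases he i with hi | hi <;> rcases he j with hj | hj <;> simp [hi, hj, hY i j, hZ i j]

theorem g10_zero {ε : Fin d → ℝ} (he : ∀ i, ε i = 0 ∨ ε i = 1) {Y Z : Mt d} (i j : Fin d)
    (h : ε i ≠ ε j) : g10W ε Y Z i j = 0 := by
  unfold g10W
  rcases he i with hi | hi <;> rcases he j with hj | hj <;> simp [hi, hj] <;>
    exact absurd (hi.trans hj.symm) h

theorem g10_term {R : Arr d} {ε : Fin d → ℝ} {Y Z : Mt d}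
    (hm : ∀ n m i j, ε n = 1 → ε m = 0 → ε i = 1 → ε j = 0 →
      R n m i j = dl n i * Y m j + dl m j * Z n i) {O : Mt d} {s : Fin d → Bool}
    (hO : ∀ a i, O a i ≠ 0 → ε a = if s i then 1 else 0) {i j k l : Fin d}
    (hi : s i = true) (hj : s j = false) (hk : s k = true) (hl : s l = false) (a b c e : Fin d) :
    R a b c e * O a i * O b j * O c k * O e l =
      (dl a c * O a i * O c k) * (O b j * g10W ε Y Z b e * O e l) +
      (dl b e * O b j * O e l) * (O a i * g10W ε Y Z a c * O c k) := by
  by_cases h1 : O a i = 0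
  · simp [h1]
  by_cases h2 : O b j = 0
  · simp [h2]
  by_cases h3 : O c k = 0
  · simp [h3]
  by_cases h4 : O e l = 0
  · simp [h4]
  have e1 : ε a = 1 := by rw [hO a i h1, hi]; simp
  have e2 : ε b = 0 := by rw [hO b j h2, hj]; simp
  have e3 : ε c = 1 := by rw [hO c k h3, hk]; simp
  have e4 : ε e = 0 := by rw [hO e l h4, hl]; simp
  have w1 : g10W ε Y Z b e = Y b e := by
    unfold g10W
    simp [e2, e4]
  have w2 : g10W ε Y Z a c = Z a c := by
    unfold g10W
    simp [e1, e3]
  rw [hm a b c e e1 e2 e3 e4, w1, w2]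
  ring

theorem g10_dl {O : Mt d} (hO : O.transpose * O = 1) (i k : Fin d) :
    ∑ a, ∑ c, dl a c * O a i * O c k = if i = k then 1 else 0 := by
  have h1 : ∑ a, ∑ c, dl a c * O a i * O c k = (O.transpose * O) i k := by
    rw [Matrix.mul_apply]
    refine Finset.sum_congr rfl fun a _ => ?_
    unfold dl
    simp [Matrix.transpose_apply]
  rw [h1, hO, Matrix.one_apply]

theorem g10_W {O W : Mt d} (j l : Fin d) :
    ∑ b, ∑ e, O b j * W b e * O e l = (O.transpose * W * O) j l := by
  rw [Matrix.mul_apply, Finset.sum_comm]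
  refine Finset.sum_congr rfl fun e _ => ?_
  rw [Matrix.mul_apply, Finset.sum_mul]
  rfl

theorem g10_fr {R : Arr d} {ε : Fin d → ℝ} {Y Z : Mt d}
    (hm : ∀ n m i j, ε n = 1 → ε m = 0 → ε i = 1 → ε j = 0 →
      R n m i j = dl n i * Y m j + dl m j * Z n i) {O : Mt d} {s : Fin d → Bool}
    (hOO : O.transpose * O = 1)
    (hO : ∀ a i, O a i ≠ 0 → ε a = if s i then 1 else 0) {i j k l : Fin d}
    (hi : s i = true) (hj : s j = false) (hk : s k = true) (hl : s l = false) :
    frR R O i j k l =
      (if i = k then 1 else 0) * (O.transpose * g10W ε Y Z * O) j l +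
      (if j = l then 1 else 0) * (O.transpose * g10W ε Y Z * O) i k := by
  have h1 : frR R O i j k l = ∑ a, ∑ c, ∑ b, ∑ e,
      ((dl a c * O a i * O c k) * (O b j * g10W ε Y Z b e * O e l) +
      (dl b e * O b j * O e l) * (O a i * g10W ε Y Z a c * O c k)) := by
    unfold frR
    refine Finset.sum_congr rfl fun a _ => ?_
    rw [Finset.sum_comm]
    exact Finset.sum_congr rfl fun c _ => Finset.sum_congr rfl fun b _ =>
      Finset.sum_congr rfl fun e _ => g10_term hm hO hi hj hk hl a b c e
  rw [h1]
  simp only [Finset.sum_add_distrib, ← Finset.mul_sum, ← Finset.sum_mul]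
  rw [g10_W, g10_W, g10_dl hOO, g10_dl hOO]

theorem G10_kr {R : Arr d} (hR : IsAlgCurv R) {ε : Fin d → ℝ} (he : ∀ i, ε i = 0 ∨ ε i = 1)
    (ht : ∀ i j k l, R i j k l ≠ 0 → (ε i = ε k ∧ ε j = ε l) ∨ (ε i = ε l ∧ ε j = ε k))
    {Y Z : Mt d} (hY : ∀ i j, Y i j = Y j i) (hZ : ∀ i j, Z i j = Z j i)
    (hm : ∀ n m i j, ε n = 1 → ε m = 0 → ε i = 1 → ε j = 0 →
      R n m i j = dl n i * Y m j + dl m j * Z n i) :
    ∃ (O : Mt d) (s : Fin d → Bool), O.transpose * O = 1 ∧ Kr s (frR R O) ∧
      (Finset.univ.filter (fun i => s i = true)).card = (Finset.univ.filter (fun i => ε i = 1)).card ∧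
      (Finset.univ.filter (fun i => s i = false)).card = (Finset.univ.filter (fun i => ε i = 0)).card := by
  obtain ⟨O, s, hOO, hod, hO, hsum⟩ := G10_diag (g10_symm he hY hZ) he (g10_zero he (Y := Y) (Z := Z))
  have hbool : ∀ p q : Bool, (if p then (1 : ℝ) else 0) = (if q then 1 else 0) → p = q := by
    intro p q h
    cases p <;> cases q <;> simp at h ⊢
  have hd : ∀ i j k l, s i = true → s j = false → s i = s k → s j = s l → (i ≠ k ∨ j ≠ l) →
      frR R O i j k l = 0 := by
    intro i j k l hi hj hk hl h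
    rw [g10_fr hm hOO hO hi hj (hk ▸ hi) (hl ▸ hj)]
    rcases h with h | h
    · rw [if_neg h, hod i k h]
      ring
    · rw [if_neg h, hod j l h]
      ring
  have hA := frR_algCurv hR O
  refine ⟨O, s, hOO, ⟨?_, ?_⟩, ?_⟩
  · intro i j k l hne
    unfold frR at hne
    obtain ⟨a, -, h1⟩ := Finset.exists_ne_zero_of_sum_ne_zero hne
    obtain ⟨b, -, h2⟩ := Finset.exists_ne_zero_of_sum_ne_zero h1
    obtain ⟨c, -, h3⟩ := Finset.exists_ne_zero_of_sum_ne_zero h2
    obtain ⟨e, -, h4⟩ := Finset.exists_ne_zero_of_sum_ne_zero h3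
    have f4 := right_ne_zero_of_mul h4
    have g4 := left_ne_zero_of_mul h4
    have f3 := right_ne_zero_of_mul g4
    have g3 := left_ne_zero_of_mul g4
    have f2 := right_ne_zero_of_mul g3
    have g2 := left_ne_zero_of_mul g3
    have f1 := right_ne_zero_of_mul g2
    have g1 := left_ne_zero_of_mul g2
    have k1 := hO a i f1
    have k2 := hO b j f2
    have k3 := hO c k f3
    have k4 := hO e l f4
    rcases ht a b c e g1 with ⟨p1, p2⟩ | ⟨p1, p2⟩
    · left
      rw [k1, k3] at p1
      rw [k2, k4] at p2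
      exact ⟨hbool _ _ p1, hbool _ _ p2⟩
    · right
      rw [k1, k4] at p1
      rw [k2, k3] at p2
      exact ⟨hbool _ _ p1, hbool _ _ p2⟩
  · intro i j k l h1 h2 h3 h4
    cases hi : s i
    · have hj : s j = true := by
        cases hj : s j
        · exact absurd (hi.trans hj.symm) h1
        · rfl
      have h5 : frR R O i j k l = frR R O j i l k := by
        have e1 := hA.skew i j k l
        have e2 := hA.pair j i k l
        have e3 := hA.skew k l j i
        have e4 := hA.pair l k j i
        linarith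
      rw [h5]
      exact hd j i l k hj hi h3 h2 h4.symm
    · have hj : s j = false := by
        cases hj : s j
        · rfl
        · exact absurd (hi.trans hj.symm) h1
      exact hd i j k l hi hj h2 h3 h4
  · have hcard : ((Finset.univ.filter (fun i => s i = true)).card : ℝ) =
        ((Finset.univ.filter (fun i => ε i = 1)).card : ℝ) := by
      have e1 : ∑ i, (if s i then (1 : ℝ) else 0) =
          ((Finset.univ.filter (fun i => s i = true)).card : ℝ) := by
        rw [Finset.sum_boole]
      have e2 : ∑ i, ε i = ((Finset.univ.filter (fun i => ε i = 1)).card : ℝ) := by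
        rw [← Finset.sum_boole]
        refine Finset.sum_congr rfl fun i _ => ?_
        rcases he i with h | h <;> simp [h]
      rw [← e1, ← e2]
      exact hsum
    have hcard' : (Finset.univ.filter (fun i => s i = true)).card =
        (Finset.univ.filter (fun i => ε i = 1)).card := by exact_mod_cast hcard
    have c1 : (Finset.univ.filter (fun i => s i = true)).card +
        (Finset.univ.filter (fun i => s i = false)).card = (Finset.univ : Finset (Fin d)).card := by
      have := Finset.card_filter_add_card_filter_not (s := (Finset.univ : Finset (Fin d)))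
        (fun i => s i = true)
      simp only [Bool.not_eq_true] at this
      rw [this]
    have c2 : (Finset.univ.filter (fun i => ε i = 1)).card +
        (Finset.univ.filter (fun i => ε i = 0)).card = (Finset.univ : Finset (Fin d)).card := by
      have := Finset.card_filter_add_card_filter_not (s := (Finset.univ : Finset (Fin d)))
        (fun i => ε i = 1)
      have e3 : (Finset.univ.filter (fun i => ¬ ε i = 1)) =
          (Finset.univ.filter (fun i => ε i = 0)) := by
        ext i
        simp only [Finset.mem_filter, Finset.mem_univ, true_and]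
        rcases he i with h | h <;> simp [h]
      rw [e3] at this
      rw [this]
    exact ⟨hcard', by omega⟩

end H56C.D
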