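import Pool.Agent.Lib.H56C.D.Defs

/-!
# G10A in dimension `d` (see `Lib/H30K/G10A.lean`)
-/

set_option autoImplicit false

open scoped ContDiff Topology Manifold
open Set

namespace H56C.D

open H31R H79G H60E H30K
open Pool.Agent.H69Hopf (Arr IsAlgCurv ev area2)
open HopfKC (lo hi)

variable {d : ℕ}

theorem g10a_spec (A : Mt d) (hA : ∀ i j, A i j = A j i) : ∃ (O : Mt d) (lam : Fin d → ℝ),
    O.transpose * O = 1 ∧ O * O.transpose = 1 ∧ ∀ i a, ∑ b, A a b * O b i = lam i * O a i := by
  have hH : A.IsHermitian := by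
    ext i j
    simp [Matrix.conjTranspose_apply, hA i j]
  have h1 : (hH.eigenvectorUnitary : Matrix (Fin d) (Fin d) ℝ).transpose *
      (hH.eigenvectorUnitary : Matrix (Fin d) (Fin d) ℝ) = 1 := by
    have := Unitary.coe_star_mul_self hH.eigenvectorUnitary
    rwa [Matrix.star_eq_conjTranspose, Matrix.conjTranspose_eq_transpose_of_trivial] at this
  refine ⟨hH.eigenvectorUnitary, hH.eigenvalues, h1, mul_eq_one_comm.mp h1, ?_⟩
  intro i a
  have h2 := congrFun (hH.mulVec_eigenvectorBasis i) a
  simp only [Matrix.mulVec, dotProduct, Pi.smul_apply, smul_eq_mul] at h2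
  exact h2

/-- bound of the quadratic form -/
theorem g10a_bd (W : Mt d) (v : Fin d → ℝ) :
    |∑ a, ∑ b, v a * W a b * v b| ≤ (∑ a, ∑ b, |W a b|) * ∑ c, v c ^ 2 := by
  have hv : ∀ a b, |v a| * |v b| ≤ ∑ c, v c ^ 2 := by
    intro a b
    have h1 : v a ^ 2 ≤ ∑ c, v c ^ 2 :=
      Finset.single_le_sum (f := fun c => v c ^ 2) (fun c _ => sq_nonneg _) (Finset.mem_univ a)
    have h2 : v b ^ 2 ≤ ∑ c, v c ^ 2 :=
      Finset.single_le_sum (f := fun c => v c ^ 2) (fun c _ => sq_nonneg _) (Finset.mem_univ b)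
    have h3 := sq_abs (v a)
    have h4 := sq_abs (v b)
    nlinarith [sq_nonneg (|v a| - |v b|)]
  rw [Finset.sum_mul]
  refine (Finset.abs_sum_le_sum_abs _ _).trans (Finset.sum_le_sum (fun a _ => ?_))
  rw [Finset.sum_mul]
  refine (Finset.abs_sum_le_sum_abs _ _).trans (Finset.sum_le_sum (fun b _ => ?_))
  rw [abs_mul, abs_mul]
  calc |v a| * |W a b| * |v b| = |W a b| * (|v a| * |v b|) := by ring
    _ ≤ _ := mul_le_mul_of_nonneg_left (hv a b) (abs_nonneg _)

/-- the quadratic form at an eigenvector -/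
theorem g10a_eig (W : Mt d) {ε : Fin d → ℝ} {K lam : ℝ} {v : Fin d → ℝ}
    (h : ∀ a, ∑ b, W a b * v b + K * ε a * v a = lam * v a) :
    ∑ a, ∑ b, v a * W a b * v b + K * ∑ a, ε a * v a ^ 2 = lam * ∑ a, v a ^ 2 := by
  rw [Finset.mul_sum, Finset.mul_sum, ← Finset.sum_add_distrib]
  refine Finset.sum_congr rfl (fun a _ => ?_)
  have := congrArg (fun x => v a * x) (h a)
  simp only [mul_add, Finset.mul_sum] at this
  rw [Finset.sum_congr rfl (fun b _ => (mul_assoc (v a) (W a b) (v b)))]
  linarith

theorem G10_diag {W : Mt d} (hW : ∀ i j, W i j = W j i) {ε : Fin d → ℝ}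
    (he : ∀ i, ε i = 0 ∨ ε i = 1) (h0 : ∀ i j, ε i ≠ ε j → W i j = 0) :
    ∃ (O : Mt d) (s : Fin d → Bool), O.transpose * O = 1 ∧
      (∀ i j, i ≠ j → (O.transpose * W * O) i j = 0) ∧
      (∀ a i, O a i ≠ 0 → ε a = if s i then 1 else 0) ∧
      ∑ i, (if s i then (1 : ℝ) else 0) = ∑ i, ε i := by
  classical
  obtain ⟨n, hn⟩ : ∃ n : ℝ, n = ∑ a, ∑ b, |W a b| := ⟨_, rfl⟩
  have hn0 : 0 ≤ n := by
    rw [hn]
    exact Finset.sum_nonneg (fun a _ => Finset.sum_nonneg (fun b _ => abs_nonneg _))
  obtain ⟨K, hK⟩ : ∃ K : ℝ, K = 2 * n + 1 := ⟨_, rfl⟩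
  obtain ⟨O, lam, hO1, hO2, hO3⟩ := g10a_spec (W + K • Matrix.diagonal ε) (by
    intro i j
    simp only [Matrix.add_apply, Matrix.smul_apply, Matrix.diagonal_apply, smul_eq_mul, hW i j]
    by_cases hij : i = j
    · subst hij; rfl
    · simp [hij, Ne.symm hij])
  have hE : ∀ i a, ∑ b, W a b * O b i + K * ε a * O a i = lam i * O a i := by
    intro i a
    rw [← hO3 i a]
    simp only [Matrix.add_apply, Matrix.smul_apply, Matrix.diagonal_apply, smul_eq_mul, add_mul,
      Finset.sum_add_distrib]
    congr 1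
    rw [Finset.sum_eq_single a]
    · simp
    · intro b _ hb
      simp [Ne.symm hb]
    · simp
  -- commutation
  have hcomm : ∀ a b, W a b * ε b = ε a * W a b := by
    intro a b
    by_cases hab : ε a = ε b
    · rw [hab]; ring
    · rw [h0 a b hab]; ring
  have hE1 : ∀ i a, ∑ b, W a b * (ε b * O b i) + K * ε a * (ε a * O a i) =
      lam i * (ε a * O a i) := by
    intro i a
    have h1 : ∑ b, W a b * (ε b * O b i) = ε a * ∑ b, W a b * O b i := by
      rw [Finset.mul_sum]
      refine Finset.sum_congr rfl (fun b _ => ?_)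
      rw [← mul_assoc, hcomm]; ring
    rw [h1]
    have := hE i a
    linear_combination ε a * this
  have hE0 : ∀ i a, ∑ b, W a b * ((1 - ε b) * O b i) + K * ε a * ((1 - ε a) * O a i) =
      lam i * ((1 - ε a) * O a i) := by
    intro i a
    have h1 : ∑ b, W a b * ((1 - ε b) * O b i) = (1 - ε a) * ∑ b, W a b * O b i := by
      rw [Finset.mul_sum]
      refine Finset.sum_congr rfl (fun b _ => ?_)
      have := hcomm a b
      linear_combination (- O b i) * this
    rw [h1]
    have := hE i a
    linear_combination (1 - ε a) * this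
  -- each column lives on one side
  have hside : ∀ i a b, ε a = 1 → O a i ≠ 0 → ε b = 0 → O b i ≠ 0 → False := by
    intro i a b ha hai hb hbi
    have q1 := g10a_eig W (hE1 i)
    have q0 := g10a_eig W (hE0 i)
    have b1 := g10a_bd W (fun c => ε c * O c i)
    have b0 := g10a_bd W (fun c => (1 - ε c) * O c i)
    have s1 : ∑ c, ε c * (ε c * O c i) ^ 2 = ∑ c, (ε c * O c i) ^ 2 := by
      refine Finset.sum_congr rfl (fun c _ => ?_)
      rcases he c with h | h <;> rw [h] <;> ring
    have s0 : ∑ c, ε c * ((1 - ε c) * O c i) ^ 2 = 0 := by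
      refine Finset.sum_eq_zero (fun c _ => ?_)
      rcases he c with h | h <;> rw [h] <;> ring
    have p1 : 0 < ∑ c, (ε c * O c i) ^ 2 := by
      refine lt_of_lt_of_le ?_ (Finset.single_le_sum (f := fun c => (ε c * O c i) ^ 2)
        (fun c _ => sq_nonneg _) (Finset.mem_univ a))
      simp only [ha, one_mul]
      positivity
    have p0 : 0 < ∑ c, ((1 - ε c) * O c i) ^ 2 := by
      refine lt_of_lt_of_le ?_ (Finset.single_le_sum (f := fun c => ((1 - ε c) * O c i) ^ 2)
        (fun c _ => sq_nonneg _) (Finset.mem_univ b))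
      simp only [hb, sub_zero, one_mul]
      positivity
    rw [s1] at q1
    rw [s0, mul_zero, add_zero] at q0
    rw [← hn] at b1 b0
    have b1' := (abs_le.mp b1).1
    have b0' := (abs_le.mp b0).2
    have l1 : K - n ≤ lam i := by
      by_contra hcon
      push Not at hcon
      nlinarith
    have l0 : lam i ≤ n := by
      by_contra hcon
      push Not at hcon
      nlinarith
    linarith
  obtain ⟨s, hs⟩ : ∃ s : Fin d → Bool, s = fun i => decide (∃ a, ε a = 1 ∧ O a i ≠ 0) := ⟨_, rfl⟩
  have h3 : ∀ a i, O a i ≠ 0 → ε a = if s i then 1 else 0 := by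
    intro a i hai
    by_cases hsi : ∃ a, ε a = 1 ∧ O a i ≠ 0
    · have : s i = true := by rw [hs]; simpa using hsi
      rw [this, if_pos rfl]
      obtain ⟨b, hb1, hb2⟩ := hsi
      rcases he a with h | h
      · exact (hside i b a hb1 hb2 h hai).elim
      · exact h
    · have : s i = false := by rw [hs]; simpa using hsi
      rw [this]
      rcases he a with h | h
      · simpa using h
      · exact (hsi ⟨a, h, hai⟩).elim
  have horth : ∀ i j, ∑ a, O a i * O a j = if i = j then 1 else 0 := by
    intro i j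
    have := congrFun (congrFun hO1 i) j
    simpa [Matrix.mul_apply, Matrix.one_apply] using this
  have horth2 : ∀ a b, ∑ i, O a i * O b i = if a = b then 1 else 0 := by
    intro i j
    have := congrFun (congrFun hO2 i) j
    simpa [Matrix.mul_apply, Matrix.one_apply] using this
  refine ⟨O, s, hO1, ?_, h3, ?_⟩
  · intro i j hij
    have h4 : (O.transpose * W * O) i j = ∑ a, O a i * ∑ b, W a b * O b j := by
      rw [Matrix.mul_assoc, Matrix.mul_apply]
      simp [Matrix.mul_apply]
    rw [h4]
    have h5 : ∀ a, O a i * ∑ b, W a b * O b j = (lam j - K * (if s i then 1 else 0)) *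
        (O a i * O a j) := by
      intro a
      have h6 := hE j a
      by_cases hai : O a i = 0
      · rw [hai]; ring
      · have h7 := h3 a i hai
        rw [← h7]
        linear_combination O a i * h6
    rw [Finset.sum_congr rfl (fun a _ => h5 a), ← Finset.mul_sum, horth, if_neg hij, mul_zero]
  · have h8 : ∀ i, (if s i then (1 : ℝ) else 0) = ∑ a, ε a * (O a i * O a i) := by
      intro i
      have h9 : ∀ a, ε a * (O a i * O a i) = (if s i then (1 : ℝ) else 0) * (O a i * O a i) := by
        intro a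
        by_cases hai : O a i = 0
        · rw [hai]; ring
        · rw [h3 a i hai]
      rw [Finset.sum_congr rfl (fun a _ => h9 a), ← Finset.mul_sum, horth, if_pos rfl, mul_one]
    rw [Finset.sum_congr rfl (fun i _ => h8 i), Finset.sum_comm]
    refine Finset.sum_congr rfl (fun a _ => ?_)
    rw [← Finset.mul_sum, horth2, if_pos rfl, mul_one]

end H56C.D
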