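import Pool.Agent.Lib.H56C.D.Defs

/-!
# G5 in dimension `d` (see `Lib/H30K/G5.lean`)
-/

set_option autoImplicit false

open scoped ContDiff Topology Manifold
open Set

namespace H56C.D

open H31R H79G H60E H30K
open Pool.Agent.H69Hopf (Arr IsAlgCurv ev area2)
open HopfKC (lo hi)

variable {d : ℕ}

/-- smooth matrix function -/
def g5_S (V : Set (EE d)) (A : EE d → Mt d) : Prop := ∀ i j, ContDiffOn ℝ ∞ (fun y => A y i j) V

theorem g5_mul {V : Set (EE d)} {A B : EE d → Mt d} (hA : g5_S V A) (hB : g5_S V B) :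
    g5_S V (fun y => A y * B y) := by
  intro i j
  simp only [Matrix.mul_apply]
  exact ContDiffOn.sum fun k _ => (hA i k).mul (hB k j)

theorem g5_tr {V : Set (EE d)} {A : EE d → Mt d} (hA : g5_S V A) :
    ContDiffOn ℝ ∞ (fun y => (A y).trace) V := by
  simp only [Matrix.trace, Matrix.diag]
  exact ContDiffOn.sum fun k _ => hA k k

theorem g5_inv {V : Set (EE d)} {G : EE d → Mt d} (h : MetOn V G) : g5_S V (fun y => (G y)⁻¹) := by
  intro i j
  rw [contDiffOn_infty]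
  intro n
  exact N_inv_sm (fun i j => (h.sm i j).of_le (by exact_mod_cast le_top))
    (fun y hy => met_det_ne h y hy) i j

theorem G5_smooth {V : Set (EE d)} {G b : EE d → Mt d} (h : MetOn V G)
    (hb : ∀ i j, ContDiffOn ℝ ∞ (fun y => b y i j) V) (hn : ∀ y ∈ V, 0 < nn2 (G y) (b y)) :
    ContDiffOn ℝ ∞ (fun y => ww (G y) (b y)) V ∧ ContDiffOn ℝ ∞ (fun y => mm (G y) (b y)) V ∧
      (∀ i j, ContDiffOn ℝ ∞ (fun y => PP (G y) (b y) i j) V) ∧
      ∀ y ∈ V, 0 < ww (G y) (b y) := by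
  have hb' : g5_S V b := hb
  have h1 := g5_mul (g5_inv h) hb'
  have h2 := g5_mul h1 h1
  have h3 := g5_mul h2 h1
  have t1 : ContDiffOn ℝ ∞ (fun y => tr1 (G y) (b y)) V := g5_tr h1
  have t2 : ContDiffOn ℝ ∞ (fun y => tr2 (G y) (b y)) V := g5_tr h2
  have t3 : ContDiffOn ℝ ∞ (fun y => tr3 (G y) (b y)) V := g5_tr h3
  have n2 : ContDiffOn ℝ ∞ (fun y => nn2 (G y) (b y)) V := t2.sub ((t1.pow 2).div_const _)
  have n3 : ContDiffOn ℝ ∞ (fun y => nn3 (G y) (b y)) V :=
    (t3.sub ((contDiffOn_const.mul (t1.mul t2)).div_const _)).add ((contDiffOn_const.mul (t1.pow 3)).div_const _)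
  have q : ContDiffOn ℝ ∞ (fun y => nn3 (G y) (b y) / nn2 (G y) (b y)) V :=
    n3.div n2 fun y hy => (hn y hy).ne'
  have r : ContDiffOn ℝ ∞ (fun y => (nn3 (G y) (b y) / nn2 (G y) (b y)) ^ 2 +
      4 * nn2 (G y) (b y) / d) V :=
    (q.pow 2).add ((contDiffOn_const.mul n2).div_const _)
  have rpos : ∀ y ∈ V, 0 < (nn3 (G y) (b y) / nn2 (G y) (b y)) ^ 2 + 4 * nn2 (G y) (b y) / d := by
    intro y hy
    have h1 := hn y hy
    have hd : (0 : ℝ) < d := by
      rcases Nat.eq_zero_or_pos d with h0 | h0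
      · exfalso
        subst h0
        unfold nn2 tr2 tr1 at h1
        simp [Matrix.trace] at h1
      · exact_mod_cast h0
    positivity
  have w : ContDiffOn ℝ ∞ (fun y => ww (G y) (b y)) V := r.sqrt fun y hy => (rpos y hy).ne'
  have wpos : ∀ y ∈ V, 0 < ww (G y) (b y) := fun y hy => Real.sqrt_pos.2 (rpos y hy)
  have m : ContDiffOn ℝ ∞ (fun y => mm (G y) (b y)) V :=
    ((q.sub w).div_const 2).add (t1.div_const _)
  refine ⟨w, m, ?_, wpos⟩
  intro i j
  have e : (fun y => PP (G y) (b y) i j) = fun y => (ww (G y) (b y))⁻¹ *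
      (b y i j - mm (G y) (b y) * G y i j) := by
    funext y
    unfold PP
    rw [Matrix.smul_apply, Matrix.sub_apply, Matrix.smul_apply, smul_eq_mul, smul_eq_mul]
  rw [e]
  exact (w.inv fun y hy => (wpos y hy).ne').mul ((hb i j).sub (m.mul (h.sm i j)))

end H56C.D
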