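import Pool.Agent.Lib.H56C.D.G9A
import Pool.Agent.Lib.H56C.D.G7C
import Pool.Agent.Lib.H30K.G9B

/-!
# G9B in dimension `d` (see `Lib/H30K/G9B.lean`)
-/

set_option autoImplicit false

open scoped ContDiff Topology Manifold
open Set

namespace H56C.D

open H31R H79G H60E H30K
open Pool.Agent.H69Hopf (Arr IsAlgCurv ev area2)
open HopfKC (lo hi)


variable {d : ℕ} {V : Set (EE d)} {G b : EE d → Mt d}

theorem G9_frame (h : MetOn V G) (hc : IsCodazzi G V b) (ht : TwoOn V G b) {x : EE d} (hx : x ∈ V)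
    {E : Mt d} (hE : E.transpose * G x * E = 1) {β ε : Fin d → ℝ} {lam mu : ℝ}
    (hβ : E.transpose * b x * E = Matrix.diagonal β) (h2 : TwoV β ε lam mu) (n m i j : Fin d) :
    frR (cov2 G b x) E n m i j =
      D9 ε (fr1 (fun a => pd a (fun y => ww (G y) (b y)) x) E)
        (fr2 (hs G (fun y => ww (G y) (b y)) x) E) (fr2 (hs G (fun y => mm (G y) (b y)) x) E)
        (fr3 (cov G (fun y => PP (G y) (b y)) x) E) n m i j := by
  obtain ⟨hw, hmm, hP, hwpos, hidem, hsym, hdec⟩ := G7_dec h hc ht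
  have hG : ∀ i j, ContDiffOn ℝ ∞ (fun y => G y i j) V := h.sm
  have hGs : ∀ y ∈ V, ∀ i j, G y i j = G y j i := h.symm
  have key : cov2 G b x = fun n m i j =>
      (hs G (fun y => ww (G y) (b y)) x n m * PP (G x) (b x) i j +
        hs G (fun y => ww (G y) (b y)) x n i * PP (G x) (b x) m j +
        hs G (fun y => ww (G y) (b y)) x n j * PP (G x) (b x) m i +
        pd m (fun y => ww (G y) (b y)) x * cov G (fun y => PP (G y) (b y)) x n i j +
        pd i (fun y => ww (G y) (b y)) x * cov G (fun y => PP (G y) (b y)) x n m j +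
        pd j (fun y => ww (G y) (b y)) x * cov G (fun y => PP (G y) (b y)) x n m i) +
      (hs G (fun y => mm (G y) (b y)) x n m * G x i j +
        hs G (fun y => mm (G y) (b y)) x n i * G x m j +
        hs G (fun y => mm (G y) (b y)) x n j * G x m i) := by
    funext n m i j
    have e1 := G8_congr (G := G) h.hU
      (T := fun y => cov G b y)
      (T' := fun y m i j => symT (fun a => pd a (fun y => ww (G y) (b y)) y) (PP (G y) (b y)) m i j +
        symT (fun a => pd a (fun y => mm (G y) (b y)) y) (G y) m i j)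
      (fun y hy m i j => G7_star h hc ht hy m i j) hx n m i j
    have e2 := G8_leib h (A := fun y => PP (G y) (b y)) hP hsym hw (A' := G) hG hGs hmm hx n m i j
    show cov3 G (fun y => cov G b y) x n m i j = _
    rw [e1, e2]
    simp only [G7_met h hx, mul_zero, add_zero]
  have hE1 : E.transpose * PP (G x) (b x) * E = Matrix.diagonal ε := (G4_two hE hβ h2).2.2.2.1
  have fP : ∀ i j, fr2 (PP (G x) (b x)) E i j = ε i * dl i j := fun i j => by
    rw [fr2_eq, hE1, g9b_diag]
  have fG : ∀ i j, fr2 (G x) E i j = dl i j := fun i j => by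
    rw [fr2_eq, hE, g9b_one]
  rw [key]
  simp only [g9b_add]
  rw [g9b_p1 (hs G (fun y => ww (G y) (b y)) x) (PP (G x) (b x)),
    g9b_p2 (hs G (fun y => ww (G y) (b y)) x) (PP (G x) (b x)),
    g9b_p3 (hs G (fun y => ww (G y) (b y)) x) (PP (G x) (b x)),
    g9b_q2 (fun a => pd a (fun y => ww (G y) (b y)) x) (cov G (fun y => PP (G y) (b y)) x),
    g9b_q3 (fun a => pd a (fun y => ww (G y) (b y)) x) (cov G (fun y => PP (G y) (b y)) x),
    g9b_q4 (fun a => pd a (fun y => ww (G y) (b y)) x) (cov G (fun y => PP (G y) (b y)) x),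
    g9b_p1 (hs G (fun y => mm (G y) (b y)) x) (G x),
    g9b_p2 (hs G (fun y => mm (G y) (b y)) x) (G x),
    g9b_p3 (hs G (fun y => mm (G y) (b y)) x) (G x)]
  simp only [fP, fG]
  unfold D9
  ring

theorem G9_mixed (h : MetOn V G) (hc : IsCodazzi G V b) (ht : TwoOn V G b) {x : EE d} (hx : x ∈ V)
    {E : Mt d} (hE : E.transpose * G x * E = 1) {β ε : Fin d → ℝ} {lam mu : ℝ}
    (hβ : E.transpose * b x * E = Matrix.diagonal β) (h2 : TwoV β ε lam mu) :
    ∃ Y Z : Mt d, (∀ i j, Y i j = Y j i) ∧ (∀ i j, Z i j = Z j i) ∧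
      ∀ n m i j, ε n = 1 → ε m = 0 → ε i = 1 → ε j = 0 →
        frR (riem G x) E n m i j = dl n i * Y m j + dl m j * Z n i := by
  obtain ⟨hw, hmm, hP, hwpos, hidem, hsym, hdec⟩ := G7_dec h hc ht
  obtain ⟨-, hW, hM, hE1, -⟩ := G4_two hE hβ h2
  have fP : ∀ i j, fr2 (PP (G x) (b x)) E i j = ε i * dl i j := fun i j => by
    rw [fr2_eq, hE1, g9b_diag]
  have fG : ∀ i j, fr2 (G x) E i j = dl i j := fun i j => by
    rw [fr2_eq, hE, g9b_one]
  have hWpos : 0 < ww (G x) (b x) := hwpos x hx
  set f : EE d → ℝ := fun y => ww (G y) (b y) with hf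
  set f' : EE d → ℝ := fun y => mm (G y) (b y) with hf'
  set A : EE d → Mt d := fun y => PP (G y) (b y) with hA
  set w : Fin d → ℝ := fr1 (fun a => pd a f x) E with hwdef
  set μ : Fin d → ℝ := fr1 (fun a => pd a f' x) E with hμdef
  set p : Fin d → Fin d → Fin d → ℝ := fr3 (cov G A x) E with hpdef
  set Hw : Fin d → Fin d → ℝ := fr2 (hs G f x) E with hHw
  set Hμ : Fin d → Fin d → ℝ := fr2 (hs G f' x) E with hHμ
  set W : ℝ := ww (G x) (b x) with hWdef
  have hp0 : ∀ n i j, ε i = ε j → p n i j = 0 := fun n i j hij =>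
    G7_frame h hP hidem hx hE h2.ep hE1 hij
  have hcovs : ∀ n i j, cov G A x n i j = cov G A x n j i := by
    intro n i j
    have e : pd n (fun y => A y i j) x = pd n (fun y => A y j i) x :=
      N_pd_congr_on h.hU hx n (fun y hy => hsym y hy i j)
    have e' : ∀ l, A x l j = A x j l := fun l => hsym x hx l j
    have e'' : ∀ l, A x i l = A x l i := fun l => hsym x hx i l
    unfold cov
    rw [e]
    simp only [e', e'']
    ring
  have hp : ∀ n i j, p n i j = p n j i := by
    intro n i j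
    rw [hpdef]
    unfold fr3
    refine Finset.sum_congr rfl fun a _ => ?_
    rw [Finset.sum_comm]
    refine Finset.sum_congr rfl fun c _ => Finset.sum_congr rfl fun e _ => ?_
    rw [hcovs a e c]
    ring
  have hμ : ∀ i, μ i + w i * ε i = 0 := fun i => G7_eig h hc ht hx hE hβ h2 i
  have hS : ∀ m i j, (μ m + w m * ε i) * dl i j + W * p m i j =
      symT w (fun i j => ε i * dl i j) m i j + symT μ dl m i j := by
    intro m i j
    have e1 : cov G b x = fun m i j => (pd m f' x * G x i j + pd m f x * A x i j) +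
        W * cov G A x m i j := by
      funext m i j
      exact G7_leib h hP hmm hw hdec hx m i j
    have e2 : cov G b x = fun m i j => symT (fun a => pd a f x) (A x) m i j +
        symT (fun a => pd a f' x) (G x) m i j := by
      funext m i j
      exact G7_star h hc ht hx m i j
    have e3 : fr3 (cov G b x) E m i j = μ m * dl i j + w m * (ε i * dl i j) + W * p m i j := by
      rw [e1, g9b_add3, g9b_add3, g9b_smul3, fr3_mul, fr3_mul, fG, fP]
    have e4 : fr3 (cov G b x) E m i j = symT w (fun i j => ε i * dl i j) m i j +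
        symT μ dl m i j := by
      rw [e2, g9b_add3, fr3_symT, fr3_symT]
      unfold symT
      rw [fP, fP, fP, fG, fG, fG]
    rw [← e4, e3]
    ring
  have hHws : ∀ i j, Hw i j = Hw j i := fun i j =>
    g9b_symm2 (fun n m => hs_symm h hw hx n m) E i j
  have hHμs : ∀ i j, Hμ i j = Hμ j i := fun i j =>
    g9b_symm2 (fun n m => hs_symm h hmm hx n m) E i j
  refine ⟨fun m j => -(W ^ 2)⁻¹ * (2 * w m * w j - W * (Hw m j + Hμ m j)),
    fun n i => -(W ^ 2)⁻¹ * (W * Hμ n i + 2 * w n * w i), fun i j => ?_, fun i j => ?_, ?_⟩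
  · simp only [hHws i j, hHμs i j]
    ring
  · simp only [hHμs i j]
    ring
  · intro n m i j hn hm hi hj
    have g1 := G2_frame h hc.sm hx hE hβ n m i j
    rw [G9_frame h hc ht hx hE hβ h2, G9_frame h hc ht hx hE hβ h2] at g1
    have g2 := G9_alg (Hw := Hw) (Hμ := Hμ) hp0 hp hμ hS hn hm hi hj
    have g3 : β j - β i = -W := by
      rw [h2.eq j, h2.eq i, hi, hj, hW]
      ring
    rw [g3] at g1
    change D9 ε w Hw Hμ p n m i j - D9 ε w Hw Hμ p m n i j = _ at g1
    rw [g1] at g2
    have hW0 : W ≠ 0 := hWpos.ne'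
    have g4 : frR (riem G x) E n m i j = -(W ^ 2)⁻¹ *
        (W * (frR (riem G x) E n m i j * -W)) := by
      field_simp
    rw [g4, g2]
    ring

end H56C.D
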